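import Pool.Agent.H482R3.EA.Stm

set_option autoImplicit false

/-! Project EA, task IDX: renumbering the generators (helper48). -/

namespace Pool.Agent.H48R2.EA

open Pool.Agent.H482R3.EA

theorem IDX_rel {S : Type} (c : S → S → ℕ) (s t : S) (hst : s ≠ t) (h : c s t ≠ 0) :
    (gen c s * gen c t) ^ (c s t) = (gen c t * gen c s) ^ (c s t) := by
  have h1 : (PresentedGroup.mk (rels c)) ((FreeGroup.of s * FreeGroup.of t) ^ (c s t) *
      ((FreeGroup.of t * FreeGroup.of s) ^ (c s t))⁻¹) = 1 :=
    PresentedGroup.one_of_mem ⟨s, t, hst, h, rfl⟩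
  rw [map_mul, map_inv, map_pow, map_pow, map_mul, map_mul, mul_inv_eq_one] at h1
  exact h1

theorem IDX_ev {S T G : Type} [Group G] (f : T → G) (g : S → T) (u : W S) :
    ev f (u.map (fun x => (g x.1, x.2))) = ev (fun s => f (g s)) u := by
  unfold ev
  rw [List.map_map]
  rfl

theorem IDX_one (hL : S_LIFT) {S T : Type} (c : S → S → ℕ) (d : T → T → ℕ) (g : S → T)
    (hg : Function.Injective g) (hc : ∀ s t, c s t = d (g s) (g t)) (u : W S)
    (hu : Triv c u) : Triv d (u.map (fun x => (g x.1, x.2))) := by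
  obtain ⟨φ, -, hφ⟩ := hL S (EA d) inferInstance c (fun s => gen d (g s)) (by
    intro s t hst h0
    rw [hc] at h0 ⊢
    exact IDX_rel d (g s) (g t) (fun h => hst (hg h)) h0)
  unfold Triv at hu ⊢
  rw [IDX_ev, ← hφ, hu, map_one]

theorem t_IDX (hL : S_LIFT) : S_IDX := by
  intro a b n e c h
  have hiff : ∀ u : W (Fin n), Triv c u ↔
      Triv (fun s t : Fin a ⊕ Fin b => c (e s) (e t)) (u.map (fun x => (e.symm x.1, x.2))) := by
    intro u
    constructor
    · intro hu
      exact IDX_one hL c _ e.symm e.symm.injective (by intro s t; simp) u hu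
    · intro hu
      have h1 := IDX_one hL _ c e e.injective (fun s t => rfl) _ hu
      rw [List.map_map] at h1
      have h2 : ((fun x : (Fin a ⊕ Fin b) × Bool => (e x.1, x.2)) ∘
          fun x : Fin n × Bool => (e.symm x.1, x.2)) = id := by
        funext x
        simp
      rw [h2, List.map_id] at h1
      exact h1
  obtain ⟨D, hD⟩ := h
  have hg : Computable (fun u : W (Fin n) =>
      (u.map (fun x => (e.symm x.1, x.2)) : W (Fin a ⊕ Fin b))) := by
    refine Primrec.to_comp ?_
    refine Primrec.list_map Primrec.id ?_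
    exact (Primrec.dom_finite (fun x : Fin n × Bool => (e.symm x.1, x.2))).comp Primrec.snd
  refine ⟨fun u => decidable_of_iff _ (hiff u).symm, (hD.comp hg).of_eq fun u => ?_⟩
  exact decide_eq_decide.2 (hiff u).symm

end Pool.Agent.H48R2.EA
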